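import Mathlib
import Pool.Agent.W262.SH.StmB

/-!
# Quadratic twists (`TWI`, project SHB of helper262)
-/

namespace Pool.Agent.W756.SH.Twi

open WeierstrassCurve Pool.Agent.W262.SH

section gen

variable {F : Type} [Field F] [DecidableEq F]

/-- scaling -/
structure Sc (W W' : WeierstrassCurve.Affine F) (u : F) : Prop where
  h1 : W'.a₁ = u * W.a₁
  h2 : W'.a₂ = u ^ 2 * W.a₂
  h3 : W'.a₃ = u ^ 3 * W.a₃
  h4 : W'.a₄ = u ^ 4 * W.a₄
  h6 : W'.a₆ = u ^ 6 * W.a₆
  hu : u ≠ 0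

variable {W W' : WeierstrassCurve.Affine F} {u : F}

omit [DecidableEq F] in
lemma Sc.eqn (h : Sc W W' u) {x y : F} :
    W'.Equation (u ^ 2 * x) (u ^ 3 * y) ↔ W.Equation x y := by
  rw [Affine.equation_iff', Affine.equation_iff', h.h1, h.h2, h.h3, h.h4, h.h6]
  have e : (u ^ 3 * y) ^ 2 + u * W.a₁ * (u ^ 2 * x) * (u ^ 3 * y) + u ^ 3 * W.a₃ * (u ^ 3 * y) -
      ((u ^ 2 * x) ^ 3 + u ^ 2 * W.a₂ * (u ^ 2 * x) ^ 2 + u ^ 4 * W.a₄ * (u ^ 2 * x) +
        u ^ 6 * W.a₆) =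
      u ^ 6 * (y ^ 2 + W.a₁ * x * y + W.a₃ * y - (x ^ 3 + W.a₂ * x ^ 2 + W.a₄ * x + W.a₆)) := by
    ring
  rw [e, mul_eq_zero, or_iff_right (pow_ne_zero 6 h.hu)]

omit [DecidableEq F] in
lemma Sc.non (h : Sc W W' u) {x y : F} :
    W'.Nonsingular (u ^ 2 * x) (u ^ 3 * y) ↔ W.Nonsingular x y := by
  rw [Affine.nonsingular_iff', Affine.nonsingular_iff', h.eqn, h.h1, h.h2, h.h3, h.h4]
  have e1 : u * W.a₁ * (u ^ 3 * y) - (3 * (u ^ 2 * x) ^ 2 + 2 * (u ^ 2 * W.a₂) * (u ^ 2 * x) +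
      u ^ 4 * W.a₄) = u ^ 4 * (W.a₁ * y - (3 * x ^ 2 + 2 * W.a₂ * x + W.a₄)) := by ring
  have e2 : 2 * (u ^ 3 * y) + u * W.a₁ * (u ^ 2 * x) + u ^ 3 * W.a₃ =
      u ^ 3 * (2 * y + W.a₁ * x + W.a₃) := by ring
  rw [e1, e2, mul_ne_zero_iff, mul_ne_zero_iff, and_iff_right (pow_ne_zero 4 h.hu),
    and_iff_right (pow_ne_zero 3 h.hu)]

omit [DecidableEq F] in
lemma Sc.negY (h : Sc W W' u) (x y : F) :
    W'.negY (u ^ 2 * x) (u ^ 3 * y) = u ^ 3 * W.negY x y := by
  rw [Affine.negY, Affine.negY, h.h1, h.h3]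
  ring

lemma Sc.slope (h : Sc W W' u) (x₁ x₂ y₁ y₂ : F) :
    W'.slope (u ^ 2 * x₁) (u ^ 2 * x₂) (u ^ 3 * y₁) (u ^ 3 * y₂) = u * W.slope x₁ x₂ y₁ y₂ := by
  have hu := h.hu
  by_cases hx : x₁ = x₂
  · subst hx
    by_cases hy : y₁ = W.negY x₁ y₂
    · rw [Affine.slope_of_Y_eq rfl hy, Affine.slope_of_Y_eq rfl (by rw [h.negY, hy]), mul_zero]
    · rw [Affine.slope_of_Y_ne rfl hy, Affine.slope_of_Y_ne rfl
        (by rw [h.negY]; exact fun e => hy (mul_left_cancel₀ (pow_ne_zero 3 hu) e)), h.negY,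
        h.h1, h.h2, h.h4, ← mul_sub]
      have e : 3 * (u ^ 2 * x₁) ^ 2 + 2 * (u ^ 2 * W.a₂) * (u ^ 2 * x₁) + u ^ 4 * W.a₄ -
          u * W.a₁ * (u ^ 3 * y₁) =
          u ^ 3 * (u * (3 * x₁ ^ 2 + 2 * W.a₂ * x₁ + W.a₄ - W.a₁ * y₁)) := by ring
      rw [e, mul_div_mul_left _ _ (pow_ne_zero 3 hu), mul_div_assoc]
  · rw [Affine.slope_of_X_ne hx, Affine.slope_of_X_ne
      (fun e => hx (mul_left_cancel₀ (pow_ne_zero 2 hu) e)), ← mul_sub, ← mul_sub,
      show u ^ 3 * (y₁ - y₂) = u ^ 2 * (u * (y₁ - y₂)) by ring,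
      mul_div_mul_left _ _ (pow_ne_zero 2 hu), mul_div_assoc]

omit [DecidableEq F] in
lemma Sc.addX (h : Sc W W' u) (x₁ x₂ l : F) :
    W'.addX (u ^ 2 * x₁) (u ^ 2 * x₂) (u * l) = u ^ 2 * W.addX x₁ x₂ l := by
  rw [Affine.addX, Affine.addX, h.h1, h.h2]
  ring

omit [DecidableEq F] in
lemma Sc.addY (h : Sc W W' u) (x₁ x₂ y₁ l : F) :
    W'.addY (u ^ 2 * x₁) (u ^ 2 * x₂) (u ^ 3 * y₁) (u * l) = u ^ 3 * W.addY x₁ x₂ y₁ l := by
  rw [Affine.addY, Affine.addY, Affine.negAddY, Affine.negAddY, h.addX, ← h.negY]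
  congr 1
  ring

open scoped Classical in
/-- the map -/
noncomputable def sc (W W' : WeierstrassCurve.Affine F) (u : F) : W.Point → W'.Point
  | .zero => .zero
  | .some x y _ =>
    if h' : W'.Nonsingular (u ^ 2 * x) (u ^ 3 * y) then .some _ _ h' else .zero

omit [DecidableEq F] in
lemma sc_zero : sc W W' u 0 = 0 := rfl

omit [DecidableEq F] in
lemma sc_some (h : Sc W W' u) {x y : F} (h0 : W.Nonsingular x y) :
    sc W W' u (.some x y h0) = .some _ _ (h.non.2 h0) := by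
  simp only [sc]
  rw [dif_pos]

omit [DecidableEq F] in
lemma some_congr {x y x' y' : F} (h : W.Nonsingular x y) (h' : W.Nonsingular x' y')
    (hx : x = x') (hy : y = y') : Affine.Point.some x y h = Affine.Point.some x' y' h' := by
  subst hx hy
  rfl

lemma sc_add (h : Sc W W' u) (P Q : W.Point) :
    sc W W' u (P + Q) = sc W W' u P + sc W W' u Q := by
  rcases P with _ | ⟨x₁, y₁, h₁⟩
  · change sc W W' u (0 + Q) = sc W W' u 0 + _
    rw [zero_add, sc_zero, zero_add]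
  rcases Q with _ | ⟨x₂, y₂, h₂⟩
  · change sc W W' u (_ + 0) = _ + sc W W' u 0
    rw [add_zero, sc_zero, add_zero]
  by_cases hxy : x₁ = x₂ ∧ y₁ = W.negY x₂ y₂
  · rw [Affine.Point.add_of_Y_eq hxy.1 hxy.2, sc_zero, sc_some h, sc_some h,
      Affine.Point.add_of_Y_eq (by rw [hxy.1]) (by rw [h.negY, hxy.2])]
  · rw [Affine.Point.add_some hxy, sc_some h, sc_some h, sc_some h, Affine.Point.add_some]
    · apply some_congr
      · rw [h.slope, h.addX]
      · rw [h.slope, h.addY]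
    · rintro ⟨e1, e2⟩
      rw [h.negY] at e2
      exact hxy ⟨mul_left_cancel₀ (pow_ne_zero 2 h.hu) e1, mul_left_cancel₀ (pow_ne_zero 3 h.hu) e2⟩

omit [DecidableEq F] in
lemma sc_bij (h : Sc W W' u) : Function.Bijective (sc W W' u) := by
  constructor
  · intro P Q e
    rcases P with _ | ⟨x₁, y₁, h₁⟩ <;> rcases Q with _ | ⟨x₂, y₂, h₂⟩
    · rfl
    · rw [sc_some h] at e
      exact absurd e.symm (Affine.Point.some_ne_zero _)
    · rw [sc_some h] at e
      exact absurd e (Affine.Point.some_ne_zero _)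
    · rw [sc_some h, sc_some h] at e
      simp only [Affine.Point.some.injEq] at e
      exact some_congr _ _ (mul_left_cancel₀ (pow_ne_zero 2 h.hu) e.1)
        (mul_left_cancel₀ (pow_ne_zero 3 h.hu) e.2)
  · intro Q
    rcases Q with _ | ⟨x, y, h0⟩
    · exact ⟨0, rfl⟩
    · have e1 : x = u ^ 2 * (x / u ^ 2) := (mul_div_cancel₀ x (pow_ne_zero 2 h.hu)).symm
      have e2 : y = u ^ 3 * (y / u ^ 3) := (mul_div_cancel₀ y (pow_ne_zero 3 h.hu)).symm
      have h1 : W'.Nonsingular (u ^ 2 * (x / u ^ 2)) (u ^ 3 * (y / u ^ 3)) := by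
        rw [← e1, ← e2]
        exact h0
      exact ⟨.some _ _ (h.non.1 h1), by rw [sc_some h]; exact some_congr _ _ e1.symm e2.symm⟩

end gen

lemma scE (A B D : ℤ) (hD : D ≠ 0) (L : Type) [Field L] [Algebra ℚ L] (s : L)
    (hs : s ^ 2 = (D : L)) :
    Sc (((E A B).baseChange L).toAffine) (((E (D * A) (D * B)).baseChange L).toAffine) s := by
  have : CharZero L := algebraRat.charZero L
  have hD' : (D : L) ≠ 0 := by exact_mod_cast hD
  constructor
  · simp [E, WeierstrassCurve.baseChange, WeierstrassCurve.map]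
  · simp only [E, WeierstrassCurve.baseChange, WeierstrassCurve.map, hs]
    push_cast
    simp only [map_neg, map_add, map_mul, map_intCast]
    ring
  · simp [E, WeierstrassCurve.baseChange, WeierstrassCurve.map]
  · simp only [E, WeierstrassCurve.baseChange, WeierstrassCurve.map]
    push_cast
    simp only [map_mul, map_intCast]
    rw [show s ^ 4 = s ^ 2 * s ^ 2 by ring, hs]
    ring
  · simp [E, WeierstrassCurve.baseChange, WeierstrassCurve.map]
  · rintro rfl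
    rw [zero_pow two_ne_zero] at hs
    exact hD' hs.symm

open scoped Classical in
theorem twi : Pool.Agent.W262.SH.TWI := by
  intro A B D hA hB hAB hD
  refine ⟨fun L _ _ s => sc (((E A B).baseChange L).toAffine)
    (((E (D * A) (D * B)).baseChange L).toAffine) s, ?_⟩
  intro L _ _ s hs
  have h := scE A B D hD L s hs
  have h' := scE A B D hD L (-s) (by rw [neg_sq, hs])
  refine ⟨fun P Q => sc_add h P Q, sc_bij h, ?_, ?_⟩
  · intro P
    rcases P with _ | ⟨x, y, h0⟩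
    · change sc _ _ _ 0 = - sc _ _ _ 0
      rw [sc_zero, sc_zero, neg_zero]
    · change sc _ _ _ _ = - sc _ _ _ _
      rw [sc_some h', sc_some h, Affine.Point.neg_some]
      apply some_congr
      · ring
      · rw [Affine.negY]
        have e1 : (((E (D * A) (D * B)).baseChange L).toAffine).a₁ = 0 := by
          simp [E, WeierstrassCurve.baseChange, WeierstrassCurve.map]
        have e3 : (((E (D * A) (D * B)).baseChange L).toAffine).a₃ = 0 := by
          simp [E, WeierstrassCurve.baseChange, WeierstrassCurve.map]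
        rw [e1, e3]
        ring
  · intro L' _ _ φ P
    have hs' : (φ s) ^ 2 = (D : L') := by rw [← map_pow, hs, map_intCast]
    have hφ := scE A B D hD L' (φ s) hs'
    rcases P with _ | ⟨x, y, h0⟩
    · change act _ φ (sc _ _ _ 0) = sc _ _ _ (act _ φ 0)
      rw [sc_zero, map_zero, map_zero, sc_zero]
    · change act _ φ (sc _ _ _ _) = sc _ _ _ (act _ φ _)
      rw [sc_some h]
      unfold act
      rw [Affine.Point.map_some, Affine.Point.map_some, sc_some hφ]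
      apply some_congr
      · rw [map_mul, map_pow]
      · rw [map_mul, map_pow]

end Pool.Agent.W756.SH.Twi
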